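import Mathlib
import Pool.Agent.Q64.L.InstC
import Pool.Agent.Q306.FG.Thms

/-!
# Étale motivic cohomology of the complexes `ℤ^c(n)`, for the products of varieties over finite
fields with the abelian varieties of almost all slope types of all CM fields

Let `K i` (`i` in a finite set) be CM fields of degree `2 g i`. Nothing is assumed about their
Galois groups. They are pairwise independent: for `i ≠ k` and all complex embeddings `φ` of `K i`
and `ψ` of `K k` some automorphism of `ℂ` is the identity on `φ (K i)` and the complex conjugation
on `ψ (K k)` (this is no condition if there is only one field). We fix an isomorphism `ν` of the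
algebraic closure of `ℚ_p` with `ℂ`; it defines a `p`-adic valuation of `ℂ`, with the value one at
`p`. Let `M i` be a function with nonzero integral values, all of which divide `n i`, on the
complex embeddings of `K i`, invariant under complex conjugation. A CM type `Φ i` of `K i` (a
choice of one element out of each complex conjugate pair of embeddings; there are `2 ^ (g i)`
types), `M i` and a real number `κ ≠ 0` prescribe the slopes `(a + κ M) / 2` (at the embeddings in
`Φ i`) and `(a - κ M) / 2` (outside of `Φ i`) of a Weil number for `p ^ a` in `K i` (`HasType`).
The case `M = 1`, `κ = a` is the case of ordinary abelian varieties; the assumption on `M` says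
that `a / 2` is not a slope.

There are `2 ^ (∑ i, g i)` families of CM types `Φ i` of the fields `K i`. A family is exceptional
(`exceptionalFamilies ν K M`) if the following statement (`Holds`) is false for it. Let `π i` be
Weil numbers for `q = p ^ a` that generate the fields `K i` and have the slope types `Φ i`, `M i`,
and let `f i` be monic polynomials whose complex roots are conjugates of `π i` (`IsPolyOf`), for
instance the characteristic polynomials of Frobenius of the abelian varieties in the isogeny
classes of the `π i` over the field with `q` elements. Let `A` be an abelian variety over the
field with `Q = q ^ s` elements which is isogenous to a product of powers of abelian varieties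
coming from the field with `q` elements, with characteristic polynomials `f i`, and let `Z` be
**any** smooth projective variety over the field with `Q` elements such that

* the eigenvalues `ρ` of Frobenius on the `ℓ`-adic cohomology of `Z` and their conjugates are
  unrelated to the fields `K i` (`UnrelatedTo`): a function `n` on the complex embeddings of `K i`
  with `n (conj φ) = - n φ` which is invariant under all automorphisms of `ℂ` that fix a power of
  `ρ` is zero. This is so if for each embedding `ψ` of `K i` some automorphism which fixes a power
  of `ρ` is the complex conjugation on `ψ (K i)`: for instance, if a power of `ρ` lies in a field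
  linearly disjoint from the normal closures of the `K i`, or in a totally real field. It is also
  so if the degree of `ρ` is less than twice the dimension of each nonzero space of functions `n`
  stable under all automorphisms of `ℂ`;
* the motive of `Z` is finite-dimensional in the sense of Kimura and O'Sullivan. This is known for
  all varieties dominated by products of curves. It implies that the Frobenius endomorphism of `Z`
  satisfies, as a correspondence modulo rational equivalence, a polynomial equation with the same
  roots as on the cohomology; only this is used.

**For every `n < 0` the groups `H^i((A × Z)_et, ℤ^c(n))`, `i ≤ - 2 n + 1`, are finitely generated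
(question Q1 for `A × Z` and `n`) if and only if for all `n'` with `n - dim A ≤ n' ≤ n` the groups
`H^i(Z_et, ℤ^c(n'))`, `i ≤ - 2 n' + 1`, are finitely generated (question Q1 for `Z` and `n'`)**
(`CycleReduces`). In particular question Q1 for `A × Z` and all `n < 0` is equivalent to question
Q1 for `Z` and all `n < 0`, and question Q1 for `Z` and all `n < 0` follows from question Q1 for
the varieties `A × Z` and `n = - 1` only, if `dim A` is unbounded. No case of the conjectures of
Tate, Beilinson and Parshin is assumed. Here `H^i(X_et, ℤ^c(n)) = H^(2 dim X + i)(X_et, ℤ(dim X -
n))`.

What is used of `A` are known theorems (`IsAbelian`): `H(A)` is generated by `H^1`, Frobenius is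
diagonalizable on `H^1` (Weil), the theorem of Tate on divisors, and the nilpotence of
homologically trivial correspondences (Kimura). The motivic cohomology groups `H^i(X, ℚ(m))`, for
`X = Z` and `X = A × Z`, are the groups of bidegree `(i, m)` of a theory which is modelled by
`RelData`, with the formal properties in `IsTheory`: degrees, products with classes on `A`,
push-forward to `Z`, the projection formula, the operation of the correspondences of `A` and of
the Frobenius endomorphism of `Z`. The Frobenius endomorphism of `X` is the multiplication by `Q ^
m` on `H^i(X, ℚ(m))` (`IsPure`). The groups `H^i(X_et, ℤ(m))` and `H^i(X_et, ℚ/ℤ(m))` belong to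
the long exact sequences of `0 → ℤ(m) → ℚ(m) → ℚ/ℤ(m) → 0` (`EtaleData`, `IsEtale`). It is known
for smooth projective `X` (`IsSmoothProjective`) that `H^i(X_et, ℚ/ℤ(m))` is finite for `m > dim
X`, and for `m = dim X`, `i < 2 m` (Deligne, Gabber, Gros and Suwa), and that `H^(2 m)(X_et,
ℤ(m))` is finitely generated for `m ≥ dim X`.

The theorem bounds the number of the exceptional families: it is at most `2 ^ (∑ i, g i) * ∑ i, C
* (n i) ^ 2 * (1 + log (2 g i)) ^ 16 * min (N ^ 2 * D ^ (1 / 4) / √g, √g / q)` with an absolute
constant `C`. Here, for `K = K i` and `g = g i`, `N` is the number of the CM subfields of `K`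
(with `K`), `D = D i ≥ 1` is a bound for the degrees of the CM subfields of `K` that are normal
over `ℚ` with a nonabelian Galois group, and `q = q i` is any prime factor of `g` (or `q = 1`). So
the exceptional types are a proportion `O (n ^ 2 * g ^ (-1 / 4) * (log g) ^ 16)` of all types of
all CM fields with a bounded number of CM subfields. Some assumption is necessary: almost all
types of a multiquadratic CM field are degenerate.

Relation to other results. The bound for the number of the degenerate types is the one of
`AllCMFields` (MP_e12fcd_ag), by helper1 and others of this team; helper64 has the theorem for the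
rational groups (the conjecture of Parshin, `AllCMTypesTimes`, MP_27fd67_ag). New here are the
groups with integral coefficients and the range of weights and degrees of the question.

The proof. Suppose that the product of `ρ` and of some eigenvalues `φ (π i)` of `A`, no two of
them complex conjugate, is a power of `q`, up to a root of unity. For an automorphism `σ` of `ℂ`
the `p`-adic valuations of the images under `σ` give a linear relation between the signed weights
`± M i (σ φ)` whose right side is a function of the valuation of `σ ρ`. It does not change if `σ`
is multiplied by an automorphism `τ` which fixes a power of `ρ`. The difference of the two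
relations is homogeneous; if the types are not degenerate it is trivial, so that the differences
of the exponents of complex conjugate embeddings are invariant under `τ`. So they are zero, as `ρ`
is unrelated to the fields `K i`. It follows that the correspondence on `A` given by the sum of
the products of dual classes of divisor products acts as the identity on the motivic cohomology of
`A × Z`: the Frobenius endomorphism of `A × Z` is the multiplication by `Q ^ j`, so that the
Frobenius endomorphism of `A` satisfies a power of the polynomial reciprocal to that of the
Frobenius endomorphism of `Z`; this polynomial is prime to the one whose value on `H(A)` lies in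
the part generated by divisors, and the difference of the two correspondences is nilpotent
(helper64). So the rational motivic cohomology of `A × Z` is the direct sum of the products of
finitely many products of divisors on `A` with that of `Z`. In the weights `m ≥ dim X` and the
degrees in question a group with integral coefficients is finitely generated if and only if the
rational group is zero: if it is finitely generated, then the rational group modulo its image is a
divisible subgroup of a finite group, hence zero, so that the rational group is finitely
generated. (The idea to play the eigenvalues of Frobenius off against nilpotence is due to Soulé,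
Geisser and Kahn.)
-/

set_option autoImplicit false

namespace Pool.Agent.Results.MP_c1eb4d_ag.AllCMTypesTimes

open NumberField Module Pool.Agent.H204R3.CM Pool.Agent.H977R3.CM Pool.Agent.TH170
  Pool.Agent.Y1.KN Pool.Agent.Y1.CT Pool.Agent.Q64.L Pool.Agent.Q306.FG

/-- The statement `CycleReduces` holds for all abelian varieties `A` whose Frobenius eigenvalues
are powers of conjugates of Weil numbers with the slope types `Φ i`, `M i`, and all `Z` unrelated to
the fields `K i`. -/
def Holds {p : ℕ} [Fact p.Prime] (ν : PadicAlgCl p ≃+* ℂ) {I : Type} (K : I → Type)
    [∀ i, Field (K i)] [∀ i, NumberField (K i)] [∀ i, IsCMField (K i)]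
    (M : ∀ i, (K i →+* ℂ) → ℤ) (Φ : ∀ i, Set (K i →+* ℂ)) : Prop :=
  ForAllTypes ν K M (fun q f => CycleReduces (UnrelatedRoots K) q f) Φ

/-- The exceptional families of CM types. -/
def exceptionalFamilies {p : ℕ} [Fact p.Prime] (ν : PadicAlgCl p ≃+* ℂ) {I : Type} (K : I → Type)
    [∀ i, Field (K i)] [∀ i, NumberField (K i)] [∀ i, IsCMField (K i)]
    (M : ∀ i, (K i →+* ℂ) → ℤ) : Set (∀ i, Set (K i →+* ℂ)) :=
  {Φ | (∀ i, IsCMType (Φ i)) ∧ ¬ Holds ν K M Φ}

/-- **Question Q1 for `A × Z` and `n` is question Q1 for `Z` and all `n - dim A ≤ n' ≤ n`**, for
the abelian varieties `A` of almost all slope types of all CM fields and all unrelated `Z`. -/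
theorem result :
    ∃ C : ℝ, 0 ≤ C ∧ ∀ (p : ℕ) [Fact p.Prime] (ν : PadicAlgCl p ≃+* ℂ) (I : Type) [Fintype I]
      (K : I → Type) [∀ i, Field (K i)] [∀ i, NumberField (K i)] [∀ i, IsCMField (K i)]
      (M : ∀ i, (K i →+* ℂ) → ℤ) (n g q : I → ℕ) (D : I → ℝ), PairwiseIndep K →
      (∀ i φ, M i (ComplexEmbedding.conjugate φ) = M i φ) → (∀ i, n i ≠ 0) →
      (∀ i φ, M i φ ∣ (n i : ℤ)) → (∀ i, finrank ℚ (K i) = 2 * g i) →
      (∀ i, q i ∣ g i ∧ (q i = 1 ∨ (q i).Prime)) → (∀ i, 1 ≤ D i) →
      (∀ (i : I) (L : IntermediateField ℚ (K i)), IsCMField L → IsGalois ℚ L →
        ¬ IsAbelianGalois ℚ L → (finrank ℚ L : ℝ) ≤ D i) →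
      ((exceptionalFamilies ν K M).ncard : ℝ) ≤
        2 ^ (∑ i, g i) * ∑ i, C * (n i : ℝ) ^ 2 * ((1 + Real.log (2 * g i)) ^ 16 *
          min ((numCMSubfields (K i) : ℝ) ^ 2 * D i ^ (1 / 4 : ℝ) / √(g i)) (√(g i) / q i)) := by
  obtain ⟨C, hC0, hC⟩ := countC
  refine ⟨C, hC0, ?_⟩
  intro p _ ν I _ K _ _ _ M n g q D hind hM hn hMn hg hq hD hDF
  exact hC p ν I K M n g q D hind hM hn hMn hg hq hD hDF _
    fun Q f hQ hG => cycleReduces hQ hG

end Pool.Agent.Results.MP_c1eb4d_ag.AllCMTypesTimes
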