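import Mathlib
import Pool.Agent.Q64.N.Main
import Pool.Agent.Q306.FG.Thms

/-!
# Étale motivic cohomology of the complexes `ℤ^c(n)`, for the products of varieties over finite
fields with abelian varieties: Newton strata

Fix a prime number `p` and a nonempty finite set `κ`. For `i` in `κ` let `g i` be a dimension and
let `sl i j`, `j < g i`, be rational numbers between `0` and `1 / 2` such that the `sl i j` and `1
- sl i j` are the slopes of a symmetric Newton polygon with integral break points (`IsNewton`)
which is not the supersingular one, that is `sl i j < 1 / 2` for some `j`. Let `r` be an integer
smaller than all the `g i`, and let `E` be a number field. By the theorem of Honda and Tate,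
`Stratum g sl p a` is the set of the families of isogeny classes of abelian varieties of
dimensions `g i` over the field with `q = p ^ a` elements with these Newton polygons; it consists
of the families `f i` of the characteristic polynomials of Frobenius.

As `a → ∞`, the number of the families in `Stratum g sl p a` tends to infinity, and **the
proportion of those families for which the following is true tends to one**: for all `N` and `ε >
0` there is an `a₀` such that for `a ≥ a₀` there are at least `N` families, and at most `ε` times
their number are exceptions.

Let `A` be an abelian variety over the field with `Q = q ^ s` elements, `s > 0`, which is
isogenous to a product of powers of abelian varieties coming from the field with `q` elements,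
with characteristic polynomials `f i`, and let `Z` be **any** smooth projective variety over the
field with `Q` elements such that

* the eigenvalues `ρ` of Frobenius on the cohomology of `Z` and their conjugates are in a group of
  rank at most `r` over `E` (`RootsRank`): there are nonzero numbers `u 1, ..., u r` such that
  each `ρ` has a power which is the product of a nonzero element of `E` and of integral powers of
  `u 1, ..., u r`;
* the motive of `Z` is finite-dimensional in the sense of Kimura and O'Sullivan. This is known for
  all varieties dominated by products of curves. It implies that the Frobenius endomorphism of `Z`
  satisfies, as a correspondence modulo rational equivalence, a polynomial equation with the same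
  roots as on the cohomology; only this is used.

**For every `n < 0` the groups `H^i((A × Z)_et, ℤ^c(n))`, `i ≤ - 2 n + 1`, are finitely generated
(question Q1 for `A × Z` and `n`) if and only if for all `n'` with `n - dim A ≤ n' ≤ n` the groups
`H^i(Z_et, ℤ^c(n'))`, `i ≤ - 2 n' + 1`, are finitely generated (question Q1 for `Z` and `n'`)**
(`CycleReduces`). In particular question Q1 for `A × Z` and all `n < 0` is equivalent to question
Q1 for `Z` and all `n < 0`, and question Q1 for `Z` and all `n < 0` follows from question Q1 for
the varieties `A × Z` and `n = - 1` only, if `dim A` is unbounded. No case of the conjectures of
Tate, Beilinson and Parshin is assumed. Here `H^i(X_et, ℤ^c(n)) = H^(2 dim X + i)(X_et, ℤ(dim X -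
n))`.

What is used of `A` are known theorems (`IsAbelian`): `H(A)` is generated by `H^1`, Frobenius is
diagonalizable on `H^1` (Weil), the theorem of Tate on divisors, and the nilpotence of
homologically trivial correspondences (Kimura). The motivic cohomology groups `H^i(X, ℚ(m))`, for
`X = Z` and `X = A × Z`, are the groups of bidegree `(i, m)` of a theory which is modelled by
`RelData`, with the formal properties in `IsTheory`: degrees, products with classes on `A`,
push-forward to `Z`, the projection formula, the operation of the correspondences of `A` and of
the Frobenius endomorphism of `Z`. The Frobenius endomorphism of `X` is the multiplication by `Q ^
m` on `H^i(X, ℚ(m))` (`IsPure`). The groups `H^i(X_et, ℤ(m))` and `H^i(X_et, ℚ/ℤ(m))` belong to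
the long exact sequences of `0 → ℤ(m) → ℚ(m) → ℚ/ℤ(m) → 0` (`EtaleData`, `IsEtale`). It is known
for smooth projective `X` (`IsSmoothProjective`) that `H^i(X_et, ℚ/ℤ(m))` is finite for `m > dim
X`, and for `m = dim X`, `i < 2 m` (Deligne, Gabber, Gros and Suwa), and that `H^(2 m)(X_et,
ℤ(m))` is finitely generated for `m ≥ dim X`.

For `r = 0` the assumption on the eigenvalues says that they and their conjugates have powers in
`E`. A supersingular abelian variety may always be added to the other factor.

Relation to other results. The count of the families in a stratum is that of helper518
(`NewtonStrata`, MP_ee618e_ag, where it is applied to the Tate conjecture), in the form of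
helper64. Helper64 has the theorem for the rational groups (the conjecture of Parshin,
`NewtonStrata`, MP_27fd67_ag). New here are the groups with integral coefficients and the range of
weights and degrees of the question.

The proof. The elements of the stratum correspond to integral points in a box whose sides tend to
infinity: the coefficients of the trace polynomials, divided by the powers of `p` prescribed by
the Newton polygons (helper518). We apply the sieve only with primes which split completely in the
Galois closure of `E` (Chebotarev, formalized by helper401). So for almost all families the trace
polynomials are irreducible, and each pair `α`, `q / α` of roots can be exchanged by a Galois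
automorphism which fixes all the other roots of all the `f i` and all elements of `E`. A
multiplicative relation between `ρ`, a power of `q` and roots of the `f i`, other than those which
follow from `α (q / α) = q`, would make the `g i > r` numbers `α ^ 2 / q` of one `f i`
multiplicatively dependent modulo `E` and `r` numbers. It follows that the correspondence on `A`
given by the sum of the products of dual classes of divisor products acts as the identity on the
motivic cohomology of `A × Z`: the Frobenius endomorphism of `A × Z` is the multiplication by `Q ^
j`, so that the Frobenius endomorphism of `A` satisfies a power of the polynomial reciprocal to
that of the Frobenius endomorphism of `Z`; this polynomial is prime to the one whose value on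
`H(A)` lies in the part generated by divisors, and the difference of the two correspondences is
nilpotent (helper64). So the rational motivic cohomology of `A × Z` is the direct sum of the
products of finitely many products of divisors on `A` with that of `Z`. In the weights `m ≥ dim X`
and the degrees in question a group with integral coefficients is finitely generated if and only
if the rational group is zero: if it is finitely generated, then the rational group modulo its
image is a divisible subgroup of a finite group, hence zero, so that the rational group is
finitely generated. (The idea to play the eigenvalues of Frobenius off against nilpotence is due
to Soulé, Geisser and Kahn.)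
-/

set_option autoImplicit false

namespace Pool.Agent.Results.MP_c1eb4d_ag.NewtonStrata

open Polynomial Pool.Agent.Q64.N Pool.Agent.Q306.FG
open Pool.Agent.Q64.L (RootsRank)

/-- **Question Q1 for `A × Z` and `n` is question Q1 for `Z` and all `n - dim A ≤ n' ≤ n`**, for
almost all families of abelian varieties in each Newton stratum over the fields of
characteristic `p`. -/
theorem result {κ : Type} [Fintype κ] [Nonempty κ] (p : ℕ) [Fact p.Prime]
    -- dimensions and Newton polygons
    (g : κ → ℕ) (sl : ∀ i, Fin (g i) → ℚ) (hsl : ∀ i, IsNewton (sl i))
    (hss : ∀ i, ∃ j, sl i j < 1 / 2)
    -- the rank and the number field
    (r : ℕ) (hr : ∀ i, r < g i) (E : IntermediateField ℚ ℂ) [FiniteDimensional ℚ E]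
    -- a number of families, a proportion of exceptions
    (N : ℕ) (ε : ℝ) (hε : 0 < ε) :
    ∃ a₀ : ℕ, ∀ a, a₀ ≤ a →
      (Stratum g sl p a).Finite ∧ N ≤ (Stratum g sl p a).ncard ∧
      ({f ∈ Stratum g sl p a | ¬ CycleReduces (RootsRank E r) (p ^ a) f}.ncard : ℝ) ≤
        ε * ((Stratum g sl p a).ncard : ℝ) :=
  strata p g sl hsl hss r hr E (fun a f => CycleReduces (RootsRank E r) (p ^ a) f)
    (fun _ _ _ hq hG => cycleReduces hq hG) N ε hε

end Pool.Agent.Results.MP_c1eb4d_ag.NewtonStrata
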