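import Pool.Agent.Q282.UZ.Sys

/-!
# MP_c1eb4d_ag: finite generation of étale motivic cohomology and three-term bilinear systems

Let `A n i X = H^i(X_et, ℤ^c(n))` for an arithmetic scheme `X` (separated and of finite type over `ℤ`),
`n < 0` and `i ∈ ℤ`. The following known properties are hypotheses of the theorem.

* `IsLocal True (A n) (Equiv.addRight 1) (Equiv.subRight 1)`: invariance under isomorphisms, the
  localization sequence `⋯ → A n i Z → A n i X → A n i U → A n (i + 1) Z → ⋯`, and `A n (i + 1) X` is a
  direct factor of `A n i (X × 𝔾_m)`.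
* `HasTransfer (A n)`: flat pull-back and push-forward for finite flat surjective morphisms of integral
  schemes, with composition multiplication by the degree.
* `TorsionFinite (A n)`: the groups of elements killed by an integer `d ≥ 1` are finite (finiteness of
  étale cohomology with finite coefficients).
* `Alterations Reg`: de Jong's theorem on alterations, as a principle of dévissage.
* `Range A Reg`: for proper regular `X` the finite generation for `i ≤ -2n + 1` implies the one for all `i`
  (known, see the problem file).
-/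

set_option autoImplicit false

open CategoryTheory AlgebraicGeometry Pool.Agent.Y116.UV Pool.Agent.Q282.UZ

universe w

namespace Pool.Agent.Results.MP_c1eb4d_ag.ThreeTermSystems

/-- **Q1 in the weight `n`**: for all proper regular arithmetic schemes `X` the groups
`H^i(X_et, ℤ^c(n))` are finitely generated for all `i ≤ -2n + 1`. -/
def ProperRegular (A : ℤ → ℤ → Sch ℤ → ModuleCat.{w} ℤ) (Reg : Sch ℤ → Prop) (n : ℤ) : Prop :=
  ∀ X : Sch ℤ, FT True X → IsProper X.hom → Reg X → ∀ i, i ≤ -2 * n + 1 →
    Module.Finite ℤ (A n i X)

/-- For all arithmetic schemes `X` the groups `H^i(X_et, ℤ^c(n))` are finitely generated for all `i`. -/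
def AllArithmetic (A : ℤ → ℤ → Sch ℤ → ModuleCat.{w} ℤ) (n : ℤ) : Prop :=
  ∀ X : Sch ℤ, FT True X → ∀ i, Module.Finite ℤ (A n i X)

/-- For all affine schemes `Y_E` over `ℤ` given by systems of bilinear equations
`∑_{(i, j) ∈ E_l} x_i y_j = 0`, `l = 1, …, c`, with at most three terms in every equation, the groups
`H^i(Y_et, ℤ^c(n))` are finitely generated for all `i`. -/
def ThreeTerms (A : ℤ → ℤ → Sch ℤ → ModuleCat.{w} ℤ) (n : ℤ) : Prop :=
  ∀ (a b c : ℕ) (E : Fin c → Finset (Fin a × Fin b)), (∀ l, (E l).card ≤ 3) →
    ∀ i, Module.Finite ℤ (A n i (sysS ℤ E))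

/-- For proper regular `X` and `n < 0`, finite generation for `i ≤ -2n + 1` implies finite generation for
all `i`. -/
def Range (A : ℤ → ℤ → Sch ℤ → ModuleCat.{w} ℤ) (Reg : Sch ℤ → Prop) : Prop :=
  ∀ n < 0, ∀ X : Sch ℤ, FT True X → IsProper X.hom → Reg X →
    (∀ i, i ≤ -2 * n + 1 → Module.Finite ℤ (A n i X)) → ∀ i, Module.Finite ℤ (A n i X)

/-- **Theorem.** For every weight `n < 0` the three statements are equivalent: Q1 in the weight `n`; finite
generation for all arithmetic schemes; finite generation for the schemes given by systems of bilinear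
equations with at most three terms. -/
theorem result {A : ℤ → ℤ → Sch ℤ → ModuleCat.{w} ℤ} {Reg : Sch ℤ → Prop}
    (localization : ∀ n < 0, IsLocal True (A n) (Equiv.addRight 1) (Equiv.subRight 1))
    (transfer : ∀ n < 0, HasTransfer (A n)) (torsion : ∀ n < 0, TorsionFinite (A n))
    (alterations : Alterations Reg) (range : Range A Reg) :
    ∀ n < 0, (ProperRegular A Reg n ↔ ThreeTerms A n) ∧ (AllArithmetic A n ↔ ThreeTerms A n) := by
  intro n hn
  have h1 : AllArithmetic A n ↔ ThreeTerms A n :=
    three_iff short_int (clo_class (localization n hn) Pool.Agent.Q193.LT.serre_finite)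
  refine ⟨⟨fun h => h1.mp ?_, fun h X hX _ _ i _ => h1.mpr h X hX i⟩, h1⟩
  exact alterations _ (alt_finite (localization n hn) (transfer n hn) (torsion n hn))
    fun X hX hp hr => range n hn X hX hp hr (h X hX hp hr)

end Pool.Agent.Results.MP_c1eb4d_ag.ThreeTermSystems
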